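import Mathlib

namespace Pool.Agent.Results.MP_2553b2_an.Unbounded

open Filter Topology

/-- `x` (with `x n` standing for `x_{n-2}`, `n ≥ 0`) is a solution of
`x_{n+1} = x_n / (C x_{n-1} + x_{n-2})` with nonnegative initial values and positive
denominators. -/
def IsSolution (C : ℝ) (x : ℕ → ℝ) : Prop :=
  0 ≤ x 0 ∧ 0 ≤ x 1 ∧ 0 ≤ x 2 ∧ (∀ n, 0 < C * x (n + 1) + x n) ∧
  ∀ n, x (n + 3) = x (n + 2) / (C * x (n + 1) + x n)

/-- One step on triples of consecutive terms. -/
noncomputable def T (C : ℝ) (p : ℝ × ℝ × ℝ) : ℝ × ℝ × ℝ :=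
  (p.2.1, p.2.2, p.2.2 / (C * p.2.1 + p.1))

/-- The solution with given initial values. -/
noncomputable def sol (C a b c : ℝ) (n : ℕ) : ℝ := ((T C)^[n] (a, b, c)).1

lemma sol_pos {C a b c : ℝ} (hC : 0 < C) (ha : 0 < a) (hb : 0 < b) (hc : 0 < c) :
    (∀ n, 0 < sol C a b c n) ∧ ∀ n, sol C a b c (n + 3) =
      sol C a b c (n + 2) / (C * sol C a b c (n + 1) + sol C a b c n) := by
  have h1 : ∀ n, 0 < ((T C)^[n] (a, b, c)).1 ∧ 0 < ((T C)^[n] (a, b, c)).2.1 ∧
      0 < ((T C)^[n] (a, b, c)).2.2 := by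
    intro n
    induction n with
    | zero => exact ⟨ha, hb, hc⟩
    | succ n ih =>
      rw [Function.iterate_succ_apply']
      obtain ⟨h1, h2, h3⟩ := ih
      refine ⟨h2, h3, ?_⟩
      unfold T
      positivity
  refine ⟨fun n => (h1 n).1, fun n => ?_⟩
  unfold sol
  rw [show n + 3 = (n + 2) + 1 from rfl, Function.iterate_succ_apply',
    show n + 2 = (n + 1) + 1 from rfl, Function.iterate_succ_apply', Function.iterate_succ_apply']
  rfl

/-- The logarithm of `C x + y` is `max (log x) (log y)` up to a bounded error. -/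
lemma log_add {C x y : ℝ} (hC : 0 < C) (hx : 0 < x) (hy : 0 < y) :
    |Real.log (C * x + y) - max (Real.log x) (Real.log y)| ≤ |Real.log C| + Real.log 2 := by
  have h2 : 0 < Real.log 2 := Real.log_pos (by norm_num)
  have ha := le_abs_self (Real.log C)
  have ha' := neg_abs_le (Real.log C)
  have hn := abs_nonneg (Real.log C)
  have hCx : 0 < C * x := by positivity
  have hl : Real.log (C * x) = Real.log C + Real.log x := Real.log_mul hC.ne' hx.ne'
  rw [abs_le]
  constructor
  · rcases le_total (Real.log x) (Real.log y) with h | h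
    · rw [max_eq_right h]
      have : Real.log y ≤ Real.log (C * x + y) := Real.log_le_log hy (by linarith)
      linarith
    · rw [max_eq_left h]
      have : Real.log (C * x) ≤ Real.log (C * x + y) := Real.log_le_log hCx (by linarith)
      linarith
  · have hm : Real.log (C * x + y) ≤ Real.log 2 + max (Real.log (C * x)) (Real.log y) := by
      rcases le_total (C * x) y with h | h
      · have h1 : Real.log (C * x + y) ≤ Real.log (2 * y) :=
          Real.log_le_log (by linarith) (by linarith)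
        rw [Real.log_mul (by norm_num) hy.ne'] at h1
        linarith [le_max_right (Real.log (C * x)) (Real.log y)]
      · have h1 : Real.log (C * x + y) ≤ Real.log (2 * (C * x)) :=
          Real.log_le_log (by linarith) (by linarith)
        rw [Real.log_mul (by norm_num) hCx.ne'] at h1
        linarith [le_max_left (Real.log (C * x)) (Real.log y)]
    have h3 : max (Real.log (C * x)) (Real.log y) ≤
        |Real.log C| + max (Real.log x) (Real.log y) := by
      apply max_le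
      · linarith [le_max_left (Real.log x) (Real.log y)]
      · linarith [le_max_right (Real.log x) (Real.log y)]
    linarith

/-- The state at the beginning of a block. -/
def State (η : ℝ) (L : ℕ → ℝ) (n : ℕ) (S : ℝ) : Prop :=
  S ≤ L (n + 1) ∧ L n ≤ L (n + 1) + 2 * η ∧ L (n + 2) ≤ L (n + 1) + 2 * η ∧ -(2 * η) ≤ L (n + 2)

lemma step {η : ℝ} (hη : 0 < η) {L : ℕ → ℝ}
    (hL : ∀ n, |L (n + 3) - (L (n + 2) - max (L (n + 1)) (L n))| ≤ η) {n : ℕ} {S : ℝ}
    (hS : 56 * η ≤ S) (h : State η L n S) : ∃ n', State η L n' (5 / 4 * S) := by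
  obtain ⟨hb, ha, hc, hc'⟩ := h
  have e1 := abs_le.mp (hL n)
  have e2 := abs_le.mp (hL (n + 1))
  have e3 := abs_le.mp (hL (n + 2))
  have e4 := abs_le.mp (hL (n + 3))
  have e5 := abs_le.mp (hL (n + 4))
  have e6 := abs_le.mp (hL (n + 5))
  have e7 := abs_le.mp (hL (n + 6))
  have e8 := abs_le.mp (hL (n + 7))
  simp only [show n + 1 + 3 = n + 4 by ring, show n + 1 + 2 = n + 3 by ring,
    show n + 1 + 1 = n + 2 by ring] at e2
  simp only [show n + 2 + 3 = n + 5 by ring, show n + 2 + 2 = n + 4 by ring,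
    show n + 2 + 1 = n + 3 by ring] at e3
  simp only [show n + 3 + 3 = n + 6 by ring, show n + 3 + 2 = n + 5 by ring,
    show n + 3 + 1 = n + 4 by ring] at e4
  simp only [show n + 4 + 3 = n + 7 by ring, show n + 4 + 2 = n + 6 by ring,
    show n + 4 + 1 = n + 5 by ring] at e5
  simp only [show n + 5 + 3 = n + 8 by ring, show n + 5 + 2 = n + 7 by ring,
    show n + 5 + 1 = n + 6 by ring] at e6
  simp only [show n + 6 + 3 = n + 9 by ring, show n + 6 + 2 = n + 8 by ring,
    show n + 6 + 1 = n + 7 by ring] at e7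
  simp only [show n + 7 + 3 = n + 10 by ring, show n + 7 + 2 = n + 9 by ring,
    show n + 7 + 1 = n + 8 by ring] at e8
  obtain ⟨a, ha'⟩ : ∃ a, L n = a := ⟨_, rfl⟩
  obtain ⟨b, hb'⟩ : ∃ b, L (n + 1) = b := ⟨_, rfl⟩
  obtain ⟨c, hc''⟩ : ∃ c, L (n + 2) = c := ⟨_, rfl⟩
  rw [ha', hb'] at ha
  rw [hb'] at hb hc
  rw [hc''] at hc hc'
  rw [hb', ha', hc''] at e1
  rw [hc'', hb'] at e2
  rw [hc''] at e3
  have m1 : b ≤ max b a ∧ max b a ≤ b + 2 * η := ⟨le_max_left _ _, max_le (by linarith) ha⟩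
  have m2 : b ≤ max c b ∧ max c b ≤ b + 2 * η := ⟨le_max_right _ _, max_le hc (by linarith)⟩
  have l1 : c - b - 3 * η ≤ L (n + 3) ∧ L (n + 3) ≤ c - b + η := by
    constructor <;> linarith [m1.1, m1.2, e1.1, e1.2]
  have l2 : L (n + 3) - b - 3 * η ≤ L (n + 4) ∧ L (n + 4) ≤ L (n + 3) - b + η := by
    constructor <;> linarith [m2.1, m2.2, e2.1, e2.2]
  have m3 : max (L (n + 3)) c = c := max_eq_right (by linarith [l1.2])
  rw [m3] at e3
  have m4 : max (L (n + 4)) (L (n + 3)) = L (n + 3) := max_eq_right (by linarith [l2.2])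
  rw [m4] at e4
  have m5 : L (n + 4) ≤ max (L (n + 5)) (L (n + 4)) ∧
      max (L (n + 5)) (L (n + 4)) ≤ L (n + 4) + 3 * η :=
    ⟨le_max_right _ _, max_le (by linarith [e3.2]) (by linarith)⟩
  have m6 : L (n + 6) ≤ max (L (n + 6)) (L (n + 5)) ∧
      max (L (n + 6)) (L (n + 5)) ≤ L (n + 6) + 4 * η :=
    ⟨le_max_left _ _, max_le (by linarith) (by linarith [e4.1, l1.2])⟩
  have l5 : b - 2 * c - 7 * η ≤ L (n + 7) ∧ L (n + 7) ≤ b - 2 * c + 6 * η := by
    constructor <;> linarith [e5.1, e5.2, m5.1, m5.2, e4.1, e4.2, e3.1, e3.2, l1.1, l1.2]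
  have l54 : 0 < L (n + 7) - L (n + 6) := by
    linarith [e5.1, m5.2, l2.2, l1.2]
  have m7 : max (L (n + 7)) (L (n + 6)) = L (n + 7) := max_eq_left (by linarith)
  rw [m7] at e7
  have l6 : 2 * b - c - 11 * η ≤ L (n + 8) := by
    linarith [e6.1, m6.2, e5.1, m5.2, l2.2, l1.2]
  have l65 : b + c - 8 * η ≤ L (n + 8) - L (n + 7) := by
    linarith [e6.1, m6.2, e4.2, e3.2, l2.2, l1.1]
  have m8 : max (L (n + 8)) (L (n + 7)) = L (n + 8) := max_eq_left (by linarith)
  rw [m8] at e8
  have l7 : b + c - 9 * η ≤ L (n + 9) := by linarith [e7.1, l65]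
  rcases le_or_gt 0 (L (n + 7)) with h7 | h7
  · refine ⟨n + 7, ?_, ?_, ?_, ?_⟩
    · rw [show n + 7 + 1 = n + 8 by ring]; linarith [l5.2]
    · rw [show n + 7 + 1 = n + 8 by ring]; linarith
    · rw [show n + 7 + 1 = n + 8 by ring, show n + 7 + 2 = n + 9 by ring]; linarith [e7.2]
    · rw [show n + 7 + 2 = n + 9 by ring]; linarith
  · refine ⟨n + 8, ?_, ?_, ?_, ?_⟩
    · rw [show n + 8 + 1 = n + 9 by ring]; linarith [l5.1]
    · rw [show n + 8 + 1 = n + 9 by ring]; linarith [e7.1]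
    · rw [show n + 8 + 1 = n + 9 by ring, show n + 8 + 2 = n + 10 by ring]; linarith [e8.2]
    · rw [show n + 8 + 2 = n + 10 by ring]; linarith [e8.1, e7.1]

/-- For every `C > 0` the recursion `x_{n+1} = x_n / (C x_{n-1} + x_{n-2})` has an unbounded
solution (with positive initial values). -/
theorem result (C : ℝ) (hC : 0 < C) :
    ∃ x : ℕ → ℝ, IsSolution C x ∧ ¬ BddAbove (Set.range x) := by
  obtain ⟨η, hηe⟩ : ∃ η, η = |Real.log C| + Real.log 2 := ⟨_, rfl⟩
  have hη : 0 < η := by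
    have h2 : 0 < Real.log 2 := Real.log_pos (by norm_num)
    rw [hηe]; positivity
  obtain ⟨hpos, hrec⟩ := sol_pos (a := 1) (b := Real.exp (56 * η)) (c := 1) hC one_pos
    (Real.exp_pos _) one_pos
  set x := sol C 1 (Real.exp (56 * η)) 1 with hx
  refine ⟨x, ⟨(hpos 0).le, (hpos 1).le, (hpos 2).le, fun n => ?_, hrec⟩, ?_⟩
  · have := hpos n
    have := hpos (n + 1)
    positivity
  have hL : ∀ n, |Real.log (x (n + 3)) - (Real.log (x (n + 2)) -
      max (Real.log (x (n + 1))) (Real.log (x n)))| ≤ η := by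
    intro n
    have h1 := log_add hC (hpos (n + 1)) (hpos n)
    have p0 := hpos n
    have p1 := hpos (n + 1)
    rw [hrec n, Real.log_div (hpos (n + 2)).ne' (by positivity), hηe]
    have e : Real.log (x (n + 2)) - Real.log (C * x (n + 1) + x n) -
        (Real.log (x (n + 2)) - max (Real.log (x (n + 1))) (Real.log (x n))) =
        -(Real.log (C * x (n + 1) + x n) - max (Real.log (x (n + 1))) (Real.log (x n))) := by ring
    rw [e, abs_neg]; exact h1
  have h0 : State η (fun n => Real.log (x n)) 0 (56 * η) := by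
    have x0 : x 0 = 1 := rfl
    have x1 : x 1 = Real.exp (56 * η) := rfl
    have x2 : x 2 = 1 := rfl
    unfold State
    simp only [zero_add]
    rw [x0, x1, x2, Real.log_one, Real.log_exp]
    refine ⟨le_rfl, by linarith, by linarith, by linarith⟩
  have hind : ∀ k : ℕ, ∃ n, State η (fun n => Real.log (x n)) n ((5 / 4) ^ k * (56 * η)) := by
    intro k
    induction k with
    | zero => exact ⟨0, by simpa using h0⟩
    | succ k ih =>
      obtain ⟨n, hn⟩ := ih
      have h1 : (1 : ℝ) ≤ (5 / 4) ^ k := one_le_pow₀ (by norm_num)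
      obtain ⟨n', hn'⟩ := step hη hL (by nlinarith) hn
      refine ⟨n', ?_⟩
      rw [pow_succ]
      have e : (5 / 4 : ℝ) ^ k * (5 / 4) * (56 * η) = 5 / 4 * ((5 / 4) ^ k * (56 * η)) := by ring
      rw [e]; exact hn'
  rintro ⟨B, hB⟩
  have hBpos : 0 < B := (hpos 0).trans_le (hB ⟨0, rfl⟩)
  obtain ⟨k, hk⟩ := pow_unbounded_of_one_lt (Real.log B / (56 * η))
    (show (1 : ℝ) < 5 / 4 by norm_num)
  rw [div_lt_iff₀ (by positivity)] at hk
  obtain ⟨n, hn⟩ := hind k
  have h3 : Real.log (x (n + 1)) ≤ Real.log B := Real.log_le_log (hpos _) (hB ⟨_, rfl⟩)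
  linarith [hn.1]

end Pool.Agent.Results.MP_2553b2_an.Unbounded
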